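import Mathlib

set_option autoImplicit false

namespace Pool.Agent.Results.MP_cd4b59_co.PathIRGraph

universe u

variable {V : Type u}

/-- The set of `D`-private neighbours of `v`: the `w` with `w = v` or `w ~ v` such that no vertex of
`D - {v}` equals or is adjacent to `w`. -/
def PN (G : SimpleGraph V) (v : V) (D : Finset V) : Set V :=
  {w | (w = v ∨ G.Adj w v) ∧ ∀ u ∈ D, u ≠ v → ¬ (u = w ∨ G.Adj u w)}

/-- `D` is irredundant: every `v ∈ D` has a `D`-private neighbour. -/
def Irredundant (G : SimpleGraph V) (D : Finset V) : Prop :=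
  ∀ v ∈ D, (PN G v D).Nonempty

/-- `D` is an `IR(G)`-set: an irredundant set of maximum cardinality. -/
def IsIRSet (G : SimpleGraph V) (D : Finset V) : Prop :=
  Irredundant G D ∧ ∀ D' : Finset V, Irredundant G D' → D'.card ≤ D.card

lemma IsIRSet.card_eq {G : SimpleGraph V} {D D' : Finset V} (h : IsIRSet G D)
    (h' : IsIRSet G D') : D.card = D'.card :=
  le_antisymm (h'.2 D h.1) (h.2 D' h'.1)

/-- The IR-graph of `G`: its vertices are the `IR(G)`-sets; `D` and `D'` are adjacent when there are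
`u ∈ D` and `v ∈ D' - {u}` with `u ~ v` in `G` and `D' = (D - {u}) ∪ {v}`. -/
def IRGraph [DecidableEq V] (G : SimpleGraph V) : SimpleGraph {D : Finset V // IsIRSet G D} where
  Adj D D' := ∃ u ∈ D.1, ∃ v ∈ D'.1 \ {u}, G.Adj u v ∧ D'.1 = (D.1 \ {u}) ∪ {v}
  symm := by
    constructor
    rintro D D' ⟨u, hu, v, hv, huv, h⟩
    have hcard := D.2.card_eq D'.2
    have hvD : v ∉ D.1 \ {u} := by
      intro hv'
      rw [h, Finset.union_eq_left.mpr (Finset.singleton_subset_iff.mpr hv'),
        Finset.card_sdiff_of_subset (Finset.singleton_subset_iff.mpr hu)] at hcard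
      have : 0 < D.1.card := Finset.card_pos.mpr ⟨u, hu⟩
      simp at hcard
      omega
    have hne : u ≠ v := huv.ne
    refine ⟨v, by rw [h]; simp, u, ?_, huv.symm, ?_⟩
    · simp [hu, hne]
    · rw [h]
      ext x
      simp only [Finset.mem_union, Finset.mem_sdiff, Finset.mem_singleton]
      constructor
      · intro hx
        by_cases hxu : x = u
        · right; exact hxu
        · left
          refine ⟨Or.inl ⟨hx, hxu⟩, ?_⟩
          rintro rfl
          exact hvD (by simp [hx, hxu])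
      · rintro (⟨⟨hx, -⟩ | hx, hxv⟩ | rfl)
        · exact hx
        · exact absurd hx hxv
        · exact hu
  loopless := by
    constructor
    rintro D ⟨u, hu, v, hv, huv, h⟩
    have : u ∈ (D.1 \ {u}) ∪ {v} := by rw [← h]; exact hu
    simp only [Finset.mem_union, Finset.mem_sdiff, Finset.mem_singleton, not_true_eq_false,
      and_false, false_or] at this
    exact huv.ne this

/-! ### The graph on nine vertices -/

/-- Adjacency rows of the graph, as bit masks. -/
def row (a : Fin 9) : ℕ :=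
  match a with
  | 0 => 2^5 + 2^6 + 2^7 + 2^8
  | 1 => 2^3 + 2^4 + 2^6 + 2^7 + 2^8
  | 2 => 2^3 + 2^4 + 2^5 + 2^7 + 2^8
  | 3 => 2^1 + 2^2 + 2^4 + 2^6 + 2^8
  | 4 => 2^1 + 2^2 + 2^3 + 2^5 + 2^7
  | 5 => 2^0 + 2^2 + 2^4 + 2^6 + 2^7
  | 6 => 2^0 + 2^1 + 2^3 + 2^5 + 2^8
  | 7 => 2^0 + 2^1 + 2^2 + 2^4 + 2^5
  | 8 => 2^0 + 2^1 + 2^2 + 2^3 + 2^6

/-- The graph on nine vertices. -/
def G9 : SimpleGraph (Fin 9) where
  Adj a b := Nat.testBit (row a) b.val = true
  symm := by constructor; intro a b; revert a b; decide +kernel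
  loopless := by constructor; intro a; revert a; decide +kernel

instance : DecidableRel G9.Adj :=
  fun a b => inferInstanceAs (Decidable (Nat.testBit (row a) b.val = true))

instance (v : Fin 9) (D : Finset (Fin 9)) (w : Fin 9) : Decidable (w ∈ PN G9 v D) :=
  inferInstanceAs (Decidable ((w = v ∨ G9.Adj w v) ∧ ∀ u ∈ D, u ≠ v → ¬ (u = w ∨ G9.Adj u w)))

instance (D : Finset (Fin 9)) : Decidable (Irredundant G9 D) :=
  decidable_of_iff (∀ v ∈ D, ∃ w, w ∈ PN G9 v D) Iff.rfl

/-- The seven IR-sets, in the order in which they form the path. -/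
def seven (i : Fin 7) : Finset (Fin 9) :=
  match i with
  | 0 => {1, 3, 6}
  | 1 => {1, 6, 8}
  | 2 => {0, 1, 8}
  | 3 => {0, 1, 2}
  | 4 => {0, 2, 7}
  | 5 => {2, 5, 7}
  | 6 => {2, 4, 5}

lemma irr_all : ∀ D : Finset (Fin 9), Irredundant G9 D →
    D.card ≤ 3 ∧ (D.card = 3 → ∃ i : Fin 7, seven i = D) := by
  decide +kernel

lemma seven_irr : ∀ i : Fin 7, Irredundant G9 (seven i) ∧ (seven i).card = 3 := by
  decide +kernel

lemma seven_inj : ∀ i j : Fin 7, seven i = seven j → i = j := by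
  decide +kernel

lemma seven_adj : ∀ i j : Fin 7,
    (∃ u ∈ seven i, ∃ v ∈ seven j \ {u}, G9.Adj u v ∧ seven j = (seven i \ {u}) ∪ {v}) ↔
      (i.val + 1 = j.val ∨ j.val + 1 = i.val) := by
  decide +kernel

lemma seven_isIRSet (i : Fin 7) : IsIRSet G9 (seven i) :=
  ⟨(seven_irr i).1, fun D' hD' => by rw [(seven_irr i).2]; exact (irr_all D' hD').1⟩

/-- The bijection between `Fin 7` and the IR-sets of `G9`. -/
noncomputable def sevenEquiv : Fin 7 ≃ {D : Finset (Fin 9) // IsIRSet G9 D} :=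
  Equiv.ofBijective (fun i => ⟨seven i, seven_isIRSet i⟩) (by
    constructor
    · intro i j h
      exact seven_inj i j (congrArg Subtype.val h)
    · rintro ⟨D, hD⟩
      have h3 : D.card = 3 := by
        rw [hD.card_eq (seven_isIRSet 0)]; exact (seven_irr 0).2
      obtain ⟨i, hi⟩ := (irr_all D hD.1).2 h3
      exact ⟨i, Subtype.ext hi⟩)

/-- **There is a graph on nine vertices whose IR-graph is the path `P_7` on seven vertices.** -/
theorem result : ∃ G : SimpleGraph (Fin 9), Nonempty (IRGraph G ≃g SimpleGraph.pathGraph 7) := by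
  refine ⟨G9, ⟨RelIso.symm ⟨sevenEquiv, ?_⟩⟩⟩
  intro i j
  rw [SimpleGraph.pathGraph_adj]
  exact seven_adj i j

end Pool.Agent.Results.MP_cd4b59_co.PathIRGraph
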